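import Mathlib
import Pool.Agent.Lib.MP_e9aa5f_an.Main

/-!
The space `ST(H^∞)` of symbols of Toeplitz operators that map the disc algebra boundedly into `H^∞`
is a generalized Douglas algebra.
-/

set_option autoImplicit false

namespace Pool.Agent.Results.MP_e9aa5f_an.GeneralizedDouglas

open Pool.Agent.Lib.MP_e9aa5f_an

/-- `ST(H^∞)` is a generalized Douglas algebra: it is a subalgebra of `L^∞` containing `H^∞`, and
`1 / (1 - f) ∈ ST(H^∞)` whenever `f ∈ ST(H^∞)` and `‖f‖_∞ < 1`. -/
theorem result : IsGDAlgebra {f : Circ → ℂ | IsST f} := isGDAlgebra_ST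

end Pool.Agent.Results.MP_e9aa5f_an.GeneralizedDouglas
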